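import Pool.Agent.H.MP_88847a_mp.H

open Filter Topology Pool.Agent.H.MP_88847a_mp

namespace Pool.Agent.Results.MP_0b1044_mp.Anti

theorem result (L : PeriodPair) :
    (∀ (N : ℕ), 1 ≤ N → ∀ β : ℂ, ∃ c,
      Conj L β (fun y : Fin N → ℂ => Jac L y ^ 2) (antiOp (-(β * (N + 1))) c)) ∧
    (∀ N : ℕ, (∃ y : Fin N → ℂ, Adm L y) ∧ ∀ y : Fin N → ℂ, Adm L y →
      AnalyticAt ℂ (uu L) y ∧ Jac L y ≠ 0 ∧ ∃ ℓ : (Fin N → ℂ) → ℂ, AnalyticAt ℂ ℓ y ∧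
        ∀ᶠ y' in 𝓝 y, Complex.exp (ℓ y') = Jac L y' ^ 2) ∧
    (∀ β lam : ℂ, β ≠ 0 → β ≠ 2 / 3 → ¬ ∃ c,
      Conj L β (fun y : Fin 1 → ℂ => Jac L y) (antiOp lam c)) ∧
    (∀ β : ℂ, β ≠ 0 → L.g₃ ≠ 0 → ¬ ∃ c,
      Conj L β (fun y : Fin 1 → ℂ => Jac L y ^ 2) (antiOp (β * 2) c)) := by
  refine ⟨fun N hN β => anti_form L hN β, fun N => ⟨exists_adm L N, fun y h =>
    ⟨analyticAt_uu' L h, Jac_ne L h,
      exists_log ((analyticAt_Jac L h).pow 2) (pow_ne_zero 2 (Jac_ne L h))⟩⟩, ?_,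
    fun β h0 h3 => sign_fail L h0 h3⟩
  rintro β lam h0 h1 ⟨c, h⟩
  refine literal_fail L h0 h1 ?_ h
  have e4 : pd 0 (fun _ : Fin 1 → ℂ => (1 : ℂ)) = fun _ => 0 := by
    ext u; simp [pd]
  have e5 : pd 0 (fun _ : Fin 1 → ℂ => (0 : ℂ)) = fun _ => 0 := by
    ext u; simp [pd]
  have : antiOp lam c (fun _ => 1) = fun u => anti1 lam c (u 0) 1 0 0 := by
    ext u; rw [antiOp_one lam c analyticAt_const, e4, e5]
  rw [this]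
  simp only [anti1, Fin.sum_univ_two, Dv, DDv]
  simp only [Matrix.cons_val_zero, Matrix.cons_val_one, if_true, zero_ne_one, one_ne_zero,
    if_false]
  fun_prop

end Pool.Agent.Results.MP_0b1044_mp.Anti
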